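import Pool.Agent.Zk17.MB.Esc

/-!
# Slowly recurrent parameters
-/

set_option autoImplicit false
open Set Filter Topology Metric MeasureTheory Finset

namespace Pool.Agent.Zk17.MB

open Pool.Agent.W746.LD Pool.Agent.T2H09.DH Pool.Agent.T2H09.LU Pool.Agent.T2H09.LV N62a1eb23
open Pool.Agent.H548R3.MB (Centre)

variable {n : ℕ} {c : ℂ}

/-- both inequalities with one constant -/
theorem both (hn : 2 ≤ n) : ∃ A : ℝ, 1 ≤ A ∧ ∀ c ∈ multibrotSet n, ∀ N : ℕ, 1 ≤ N →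
    ∀ δ : ℝ, 0 < δ → δ ≤ 1 → (∀ j, 1 ≤ j → j < N → δ ≤ ‖orb n c c j - c‖) →
    (∃ c' : ℂ, Centre n (N + 2) c' ∧
      ‖c' - c‖ * (‖P n c c N‖ * δ) ≤ A * (N * (1 + Real.log (1 / δ))) ^ A) ∧
    ∀ y : ℂ, 3 < ‖orb n c y N‖ → ∃ c' : ℂ, Centre n (N + 2) c' ∧
      ‖c' - c‖ * δ ^ 2 ≤ A * (N * (1 + Real.log (1 / δ))) ^ A * ‖y - c‖ := by
  obtain ⟨A, hA1, hA⟩ := growth hn
  obtain ⟨B, hB1, hB⟩ := escape hn
  refine ⟨max A B, le_max_of_le_left hA1, fun c hc N hN δ hδ hδ1 h => ?_⟩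
  have hN1 : (1 : ℝ) ≤ N := by exact_mod_cast hN
  have hl : 0 ≤ Real.log (1 / δ) := Real.log_nonneg (by rw [le_div_iff₀ hδ]; linarith)
  obtain ⟨U, hU⟩ : ∃ U : ℝ, U = N * (1 + Real.log (1 / δ)) := ⟨_, rfl⟩
  have hU1 : 1 ≤ U := by
    rw [hU]
    nlinarith
  rw [← hU]
  have h1 : A * U ^ A ≤ max A B * U ^ max A B := by
    have := Real.rpow_le_rpow_of_exponent_le hU1 (le_max_left A B)
    have h2 : 0 ≤ U ^ A := by positivity
    gcongr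
    exact le_max_left A B
  have h2 : B * U ^ B ≤ max A B * U ^ max A B := by
    have := Real.rpow_le_rpow_of_exponent_le hU1 (le_max_right A B)
    have h2 : 0 ≤ U ^ B := by positivity
    gcongr
    exact le_max_right A B
  refine ⟨?_, fun y hy => ?_⟩
  · obtain ⟨c', h3, h4⟩ := hA c hc N hN δ hδ hδ1 h
    rw [← hU] at h4
    exact ⟨c', h3, h4.trans h1⟩
  · obtain ⟨c', h3, h4⟩ := hB c hc N hN δ hδ hδ1 h y hy
    rw [← hU] at h4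
    exact ⟨c', h3, h4.trans (mul_le_mul_of_nonneg_right h2 (norm_nonneg _))⟩

theorem slow (hn : 2 ≤ n) (hc : c ∈ multibrotSet n) {a β : ℝ} (ha : 0 ≤ a) (hβ : 0 < β)
    (h : ∀ j : ℕ, 1 ≤ j → β * (j : ℝ) ^ (-a) ≤ ‖orb n c c j - c‖) {r : ℝ} (hr : 0 < r)
    (hfar : ∀ (m : ℕ) (c' : ℂ), Centre n m c' → r ≤ ‖c' - c‖) :
    ∃ K : ℝ, 1 ≤ K ∧ ∀ N : ℕ, 1 ≤ N → ‖P n c c N‖ ≤ K * (N : ℝ) ^ K ∧
      ∀ y : ℂ, ‖y - c‖ ≤ 1 / (K * (N : ℝ) ^ K) → ‖orb n c y N‖ ≤ 3 := by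
  obtain ⟨A, hA1, hA⟩ := both hn
  obtain ⟨b, hb⟩ : ∃ b, b = min 1 β := ⟨_, rfl⟩
  have hb0 : 0 < b := by rw [hb]; exact lt_min one_pos hβ
  have hb1 : b ≤ 1 := by rw [hb]; exact min_le_left _ _
  have hbβ : b ≤ β := by rw [hb]; exact min_le_right _ _
  have hL : 0 ≤ Real.log (1 / b) := Real.log_nonneg (by rw [le_div_iff₀ hb0]; linarith)
  obtain ⟨Q, hQ⟩ : ∃ Q, Q = 1 + Real.log (1 / b) + a := ⟨_, rfl⟩
  have hQ1 : 1 ≤ Q := by rw [hQ]; linarith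
  have hQA : 0 < Q ^ A := Real.rpow_pos_of_pos (by linarith) _
  obtain ⟨G, hG⟩ : ∃ G, G = A * Q ^ A / (r * b ^ 2) := ⟨_, rfl⟩
  have hG0 : 0 < G := by rw [hG]; positivity
  refine ⟨G + 2 * A + 2 * a + 1, by linarith, fun N hN => ?_⟩
  obtain ⟨K, hK⟩ : ∃ K, K = G + 2 * A + 2 * a + 1 := ⟨_, rfl⟩
  rw [← hK]
  have hN1 : (1 : ℝ) ≤ N := by exact_mod_cast hN
  have hN0 : (0 : ℝ) < N := by linarith
  obtain ⟨δ, hδ⟩ : ∃ δ, δ = b * (N : ℝ) ^ (-a) := ⟨_, rfl⟩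
  have hNa : 0 < (N : ℝ) ^ (-a) := Real.rpow_pos_of_pos hN0 _
  have hNa1 : (N : ℝ) ^ (-a) ≤ 1 := Real.rpow_le_one_of_one_le_of_nonpos hN1 (by linarith)
  have hδ0 : 0 < δ := by rw [hδ]; positivity
  have hδ1 : δ ≤ 1 := by
    rw [hδ]
    exact mul_le_one₀ hb1 hNa.le hNa1
  have hap : ∀ j, 1 ≤ j → j < N → δ ≤ ‖orb n c c j - c‖ := by
    intro j hj1 hj2
    refine le_trans ?_ (h j hj1)
    have hj0 : (0 : ℝ) < j := by exact_mod_cast hj1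
    rw [hδ]
    have h1 : (N : ℝ) ^ (-a) ≤ (j : ℝ) ^ (-a) :=
      Real.rpow_le_rpow_of_nonpos hj0 (by exact_mod_cast hj2.le) (by linarith)
    gcongr
  have hlog : Real.log (1 / δ) ≤ Real.log (1 / b) + a * N := by
    rw [hδ, one_div, Real.log_inv, Real.log_mul hb0.ne' hNa.ne', Real.log_rpow hN0, one_div,
      Real.log_inv]
    have := Real.log_le_sub_one_of_pos hN0
    nlinarith
  have hl0 : 0 ≤ Real.log (1 / δ) := Real.log_nonneg (by rw [le_div_iff₀ hδ0]; linarith)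
  have hU : A * (N * (1 + Real.log (1 / δ))) ^ A ≤ A * Q ^ A * (N : ℝ) ^ (2 * A) := by
    have h1 : N * (1 + Real.log (1 / δ)) ≤ Q * (N : ℝ) ^ (2 : ℕ) := by
      have e1 : 1 + Real.log (1 / δ) ≤ Q * N := by
        rw [hQ]
        nlinarith [mul_nonneg hL (by linarith : (0 : ℝ) ≤ N - 1)]
      calc N * (1 + Real.log (1 / δ)) ≤ N * (Q * N) := by gcongr
        _ = _ := by ring
    have h2 : (N * (1 + Real.log (1 / δ))) ^ A ≤ (Q * (N : ℝ) ^ (2 : ℕ)) ^ A :=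
      Real.rpow_le_rpow (by positivity) h1 (by linarith)
    rw [Real.mul_rpow (x := Q) (by linarith) (by positivity), ← Real.rpow_natCast (N : ℝ) 2,
      ← Real.rpow_mul hN0.le] at h2
    push_cast at h2
    rw [mul_assoc]
    gcongr
  obtain ⟨h1, h2⟩ := hA c hc N hN δ hδ0 hδ1 hap
  have hKN : (N : ℝ) ^ (2 * A + 2 * a) ≤ (N : ℝ) ^ K :=
    Real.rpow_le_rpow_of_exponent_le hN1 (by rw [hK]; linarith)
  have hδ2 : b ^ 2 ≤ δ ^ 2 * (N : ℝ) ^ (2 * a) := by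
    refine le_of_eq ?_
    rw [hδ, mul_pow, mul_assoc, ← Real.rpow_natCast ((N : ℝ) ^ (-a)) 2, ← Real.rpow_mul hN0.le,
      ← Real.rpow_add hN0]
    norm_num
    rw [show -(a * 2) + 2 * a = 0 by ring, Real.rpow_zero, mul_one]
  refine ⟨?_, fun y hy => ?_⟩
  · obtain ⟨c', h3, h4⟩ := h1
    have h5 := hfar _ c' h3
    have h6 : r * (‖P n c c N‖ * δ) ≤ A * Q ^ A * (N : ℝ) ^ (2 * A) := by
      refine le_trans ?_ (h4.trans hU)
      gcongr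
    have hδb : δ ^ 2 ≤ δ := by nlinarith
    have h7 : ‖P n c c N‖ * (r * b ^ 2) ≤ A * Q ^ A * (N : ℝ) ^ (2 * A + 2 * a) := by
      calc ‖P n c c N‖ * (r * b ^ 2) ≤ ‖P n c c N‖ * (r * (δ ^ 2 * (N : ℝ) ^ (2 * a))) := by gcongr
        _ ≤ ‖P n c c N‖ * (r * (δ * (N : ℝ) ^ (2 * a))) := by gcongr
        _ = r * (‖P n c c N‖ * δ) * (N : ℝ) ^ (2 * a) := by ring
        _ ≤ A * Q ^ A * (N : ℝ) ^ (2 * A) * (N : ℝ) ^ (2 * a) := by gcongr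
        _ = _ := by rw [mul_assoc, ← Real.rpow_add hN0]
    have h8 : ‖P n c c N‖ ≤ G * (N : ℝ) ^ (2 * A + 2 * a) := by
      rw [hG, div_mul_eq_mul_div, le_div_iff₀ (by positivity)]
      exact h7
    refine h8.trans ?_
    have : G ≤ K := by rw [hK]; linarith
    have hK0 : 0 ≤ K := by linarith
    gcongr
  · by_contra hcon
    push Not at hcon
    obtain ⟨c', h3, h4⟩ := h2 y hcon
    have h5 := hfar _ c' h3
    have hK0 : 0 < K := by rw [hK]; linarith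
    have h6 : r * b ^ 2 ≤ A * Q ^ A * (N : ℝ) ^ (2 * A + 2 * a) * ‖y - c‖ := by
      calc r * b ^ 2 ≤ r * (δ ^ 2 * (N : ℝ) ^ (2 * a)) := by gcongr
        _ = r * δ ^ 2 * (N : ℝ) ^ (2 * a) := by ring
        _ ≤ ‖c' - c‖ * δ ^ 2 * (N : ℝ) ^ (2 * a) := by gcongr
        _ ≤ A * (N * (1 + Real.log (1 / δ))) ^ A * ‖y - c‖ * (N : ℝ) ^ (2 * a) := by gcongr
        _ ≤ A * Q ^ A * (N : ℝ) ^ (2 * A) * ‖y - c‖ * (N : ℝ) ^ (2 * a) := by gcongr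
        _ = A * Q ^ A * ((N : ℝ) ^ (2 * A) * (N : ℝ) ^ (2 * a)) * ‖y - c‖ := by ring
        _ = _ := by rw [← Real.rpow_add hN0]
    have hNK : 0 < (N : ℝ) ^ K := Real.rpow_pos_of_pos hN0 _
    have h7 : A * Q ^ A * (N : ℝ) ^ (2 * A + 2 * a) * ‖y - c‖ ≤
        A * Q ^ A * (N : ℝ) ^ K * (1 / (K * (N : ℝ) ^ K)) := by gcongr
    have h8 : A * Q ^ A * (N : ℝ) ^ K * (1 / (K * (N : ℝ) ^ K)) = A * Q ^ A / K := by
      field_simp
    have h9 : A * Q ^ A / K < r * b ^ 2 := by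
      rw [div_lt_iff₀ hK0]
      have : A * Q ^ A = G * (r * b ^ 2) := by
        rw [hG]
        field_simp
      rw [this]
      have h10 : G < K := by rw [hK]; linarith
      have h11 : 0 < r * b ^ 2 := by positivity
      nlinarith
    linarith

end Pool.Agent.Zk17.MB
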