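import Pool.Agent.Zk17.MB.Rel

/-!
# Escape near the critical value forces superattracting parameters nearby
-/

set_option autoImplicit false
open Set Filter Topology Metric MeasureTheory Finset

namespace Pool.Agent.Zk17.MB

open Pool.Agent.W746.LD Pool.Agent.T2H09.DH Pool.Agent.T2H09.LU Pool.Agent.T2H09.LV N62a1eb23
open Pool.Agent.H548R3.MB (Centre)

variable {n : ℕ} {c : ℂ}

/-- **Escape.** -/
theorem escape (hn : 2 ≤ n) : ∃ A : ℝ, 1 ≤ A ∧ ∀ c ∈ multibrotSet n, ∀ N : ℕ, 1 ≤ N →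
    ∀ δ : ℝ, 0 < δ → δ ≤ 1 → (∀ j, 1 ≤ j → j < N → δ ≤ ‖orb n c c j - c‖) →
    ∀ y : ℂ, 3 < ‖orb n c y N‖ → ∃ c' : ℂ, Centre n (N + 2) c' ∧
      ‖c' - c‖ * δ ^ 2 ≤ A * (N * (1 + Real.log (1 / δ))) ^ A * ‖y - c‖ := by
  obtain ⟨A, hA1, hA⟩ := growth hn
  have hn0 : (0 : ℝ) < n := by exact_mod_cast (by omega : 0 < n)
  obtain ⟨K, hK⟩ : ∃ K : ℝ, K = 4 * n * 3 ^ n * A := ⟨_, rfl⟩
  have hK0 : 0 < K := by rw [hK]; positivity
  refine ⟨2 * K + A + 1, by linarith, ?_⟩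
  intro c hc N hN δ hδ hδ1 h y hy
  have hN1 : (1 : ℝ) ≤ N := by exact_mod_cast hN
  have hl : 0 ≤ Real.log (1 / δ) := Real.log_nonneg (by rw [le_div_iff₀ hδ]; linarith)
  obtain ⟨U, hU⟩ : ∃ U : ℝ, U = N * (1 + Real.log (1 / δ)) := ⟨_, rfl⟩
  have hNU : (N : ℝ) ≤ U := by
    rw [hU]
    nlinarith
  have hU1 : 1 ≤ U := hN1.trans hNU
  have hUA1 : 1 ≤ U ^ A := Real.one_le_rpow hU1 (by linarith)
  rw [← hU]
  by_contra hcon
  push Not at hcon
  obtain ⟨R, hR⟩ : ∃ R : ℝ, R = (2 * K + A + 1) * U ^ (2 * K + A + 1) * ‖y - c‖ / δ ^ 2 := ⟨_, rfl⟩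
  have hfar : ∀ c' : ℂ, Centre n (N + 2) c' → R < ‖c' - c‖ := by
    intro c' hc'
    rw [hR, div_lt_iff₀ (by positivity)]
    exact hcon c' hc'
  have hyc0 : 0 < ‖y - c‖ := by
    rw [norm_pos_iff, sub_ne_zero]
    rintro rfl
    have := mem_multibrot_orb hn hc N
    linarith
  have hR0 : 0 < R := by
    rw [hR]
    positivity
  have hR2 : R < 2 := by
    have h1 := hfar 0 ⟨1, le_rfl, by omega, Pool.Agent.H712R2.P_one hn 0⟩
    rw [zero_sub, norm_neg] at h1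
    linarith [norm_le_two hn hc]
  -- the derivatives
  obtain ⟨X, hX⟩ : ∃ X : ℝ, X = 2 * (A * U ^ A) / (R * δ) := ⟨_, rfl⟩
  have hP : ∀ j < N, ‖P n c c j‖ ≤ X := by
    intro j hj
    rcases Nat.eq_zero_or_pos j with h0 | h0
    · subst h0
      rw [P_zero, norm_one, hX, le_div_iff₀ (by positivity)]
      nlinarith
    · obtain ⟨c', hc1, hc2⟩ := hA c hc j h0 δ hδ hδ1 fun i hi hij => h i hi (by omega)
      obtain ⟨p, hp1, hp2, hp3⟩ := hc1
      have h1 := hfar c' ⟨p, hp1, by omega, hp3⟩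
      have hj1 : (1 : ℝ) ≤ j := by exact_mod_cast h0
      have hjN : (j : ℝ) ≤ N := by exact_mod_cast hj.le
      have h2 : (j * (1 + Real.log (1 / δ))) ^ A ≤ U ^ A := by
        rw [hU]
        refine Real.rpow_le_rpow (by positivity) ?_ (by linarith)
        gcongr
      rw [hX, le_div_iff₀ (by positivity)]
      calc ‖P n c c j‖ * (R * δ) = R * (‖P n c c j‖ * δ) := by ring
        _ ≤ ‖c' - c‖ * (‖P n c c j‖ * δ) := by gcongr
        _ ≤ A * (j * (1 + Real.log (1 / δ))) ^ A := hc2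
        _ ≤ A * U ^ A := by gcongr
        _ ≤ 2 * (A * U ^ A) := by
          have : 0 < A * U ^ A := by positivity
          linarith
  have htrap := trap hn hc hN hδ hδ1 h hP (y := y)
  have h1 : δ < 4 * n * 3 ^ n * N * X * ‖y - c‖ := by
    by_contra h2
    push Not at h2
    have := htrap h2
    linarith
  -- contradiction
  have h2 : 4 * n * 3 ^ n * N * X * ‖y - c‖ ≤ δ := by
    rw [hX, mul_div_assoc', div_mul_eq_mul_div, div_le_iff₀ (by positivity)]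
    have h3 : δ * (R * δ) = (2 * K + A + 1) * U ^ (2 * K + A + 1) * ‖y - c‖ := by
      rw [hR]
      field_simp
    rw [h3]
    refine mul_le_mul_of_nonneg_right ?_ hyc0.le
    have h4 : U * U ^ A ≤ U ^ (2 * K + A + 1) := by
      calc U * U ^ A = U ^ (1 : ℝ) * U ^ A := by rw [Real.rpow_one]
        _ = U ^ (1 + A) := by rw [← Real.rpow_add (by linarith)]
        _ ≤ U ^ (2 * K + A + 1) := Real.rpow_le_rpow_of_exponent_le hU1 (by linarith)
    calc 4 * n * 3 ^ n * N * (2 * (A * U ^ A)) = 2 * K * (N * U ^ A) := by rw [hK]; ring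
      _ ≤ (2 * K + A + 1) * (U * U ^ A) := by
        gcongr
        linarith
      _ ≤ (2 * K + A + 1) * U ^ (2 * K + A + 1) := by gcongr
  linarith

end Pool.Agent.Zk17.MB
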