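import Pool.Agent.Zk29.Gen.Crit

/-!
# Growth of the derivative relative to the closest return
-/

set_option autoImplicit false
open Set Filter Topology Metric MeasureTheory Finset

namespace Pool.Agent.Zk17.MB

open Pool.Agent.W746.LD Pool.Agent.T2H09.DH Pool.Agent.T2H09.LU Pool.Agent.T2H09.LV N62a1eb23

variable {n : ℕ} {c : ℂ}

/-- lower bound for the derivative from the distances of the returns -/
theorem P_ge (hn : 2 ≤ n) {N : ℕ} {δ : ℝ} (hδ : 0 < δ) (hδ1 : δ ≤ 1)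
    (h : ∀ j, 1 ≤ j → j < N → δ ≤ ‖orb n c c j - c‖) :
    ∀ j < N, δ ^ j ≤ ‖P n c c j‖ := by
  intro j
  induction j with
  | zero => intro _; simp
  | succ j ih =>
    intro hj
    have h1 := ih (by omega)
    have h2 := h (j + 1) (by omega) hj
    rw [norm_orb_succ_sub] at h2
    rw [P_succ, norm_mul, pow_succ]
    have hx0 : 0 ≤ ‖orb n c c j‖ := norm_nonneg _
    have h3 : δ ≤ ‖(n : ℂ) * orb n c c j ^ (n - 1)‖ := by
      rw [norm_mul, Complex.norm_natCast, norm_pow]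
      have hn' : (2 : ℝ) ≤ n := by exact_mod_cast hn
      rcases le_or_gt ‖orb n c c j‖ 1 with hx | hx
      · have h4 : ‖orb n c c j‖ ^ n ≤ ‖orb n c c j‖ ^ (n - 1) :=
          pow_le_pow_of_le_one hx0 hx (by omega)
        nlinarith [pow_nonneg hx0 (n - 1)]
      · have h4 : (1 : ℝ) ≤ ‖orb n c c j‖ ^ (n - 1) := one_le_pow₀ hx.le
        nlinarith
    exact mul_le_mul h1 h3 hδ.le (norm_nonneg _)

theorem W_le (hn : 2 ≤ n) {N : ℕ} (hN : 1 ≤ N) {δ : ℝ} (hδ : 0 < δ) (hδ1 : δ ≤ 1)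
    (h : ∀ j, 1 ≤ j → j < N → δ ≤ ‖orb n c c j - c‖) :
    1 ≤ 1 + Real.log (∑ j ∈ range N, ‖P n c c j‖⁻¹) ∧
    1 + Real.log (∑ j ∈ range N, ‖P n c c j‖⁻¹) ≤ N * (1 + Real.log (1 / δ)) := by
  have hΛ1 : 1 ≤ ∑ j ∈ range N, ‖P n c c j‖⁻¹ := by
    calc (1 : ℝ) = ‖P n c c 0‖⁻¹ := by rw [P_zero, norm_one, inv_one]
      _ ≤ _ := Finset.single_le_sum (f := fun j => ‖P n c c j‖⁻¹)
        (fun j _ => by positivity) (Finset.mem_range.mpr (by omega))
  have hN1 : (1 : ℝ) ≤ N := by exact_mod_cast hN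
  have hl : 0 ≤ Real.log (1 / δ) := Real.log_nonneg (by rw [le_div_iff₀ hδ]; linarith)
  refine ⟨by linarith [Real.log_nonneg hΛ1], ?_⟩
  have h1 : ∑ j ∈ range N, ‖P n c c j‖⁻¹ ≤ N * (1 / δ) ^ (N - 1) := by
    have h2 : ∀ j ∈ range N, ‖P n c c j‖⁻¹ ≤ (1 / δ) ^ (N - 1) := by
      intro j hj
      have h3 := P_ge hn hδ hδ1 h j (mem_range.1 hj)
      have h4 : δ ^ (N - 1) ≤ δ ^ j := pow_le_pow_of_le_one hδ.le hδ1 (by
        have := mem_range.1 hj
        omega)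
      rw [one_div, inv_pow]
      exact inv_anti₀ (by positivity) (h4.trans h3)
    refine (sum_le_sum h2).trans ?_
    rw [sum_const, card_range, nsmul_eq_mul]
  have h2 : Real.log (∑ j ∈ range N, ‖P n c c j‖⁻¹) ≤
      Real.log N + (N - 1 : ℕ) * Real.log (1 / δ) := by
    rw [← Real.log_pow, ← Real.log_mul (by positivity) (by positivity)]
    exact Real.log_le_log (by linarith) h1
  have h3 := Real.log_le_sub_one_of_pos (show (0 : ℝ) < N by linarith)
  have h4 : ((N - 1 : ℕ) : ℝ) * Real.log (1 / δ) ≤ N * Real.log (1 / δ) := by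
    gcongr
    omega
  linarith

/-- **The growth of the derivative is polynomial relative to the closest return.** -/
theorem growth (hn : 2 ≤ n) : ∃ A : ℝ, 1 ≤ A ∧ ∀ c ∈ multibrotSet n, ∀ N : ℕ, 1 ≤ N →
    ∀ δ : ℝ, 0 < δ → δ ≤ 1 → (∀ j, 1 ≤ j → j < N → δ ≤ ‖orb n c c j - c‖) →
    ∃ c' : ℂ, Pool.Agent.H548R3.MB.Centre n (N + 2) c' ∧
      ‖c' - c‖ * (‖P n c c N‖ * δ) ≤ A * (N * (1 + Real.log (1 / δ))) ^ A := by
  obtain ⟨A, hA1, hA⟩ := Pool.Agent.Zk29.closing hn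
  refine ⟨6 * A + 2, by linarith, ?_⟩
  intro c hc N hN δ hδ hδ1 h
  obtain ⟨hW1, hW2⟩ := W_le hn hN hδ hδ1 h
  set W : ℝ := 1 + Real.log (∑ j ∈ range N, ‖P n c c j‖⁻¹) with hW
  set U : ℝ := N * (1 + Real.log (1 / δ)) with hU
  have hN1 : (1 : ℝ) ≤ N := by exact_mod_cast hN
  have hl : 0 ≤ Real.log (1 / δ) := Real.log_nonneg (by rw [le_div_iff₀ hδ]; linarith)
  have hNU : (N : ℝ) ≤ U := by
    rw [hU]
    nlinarith
  have hU1 : 1 ≤ U := hN1.trans hNU
  have hWA1 : 1 ≤ W ^ A := Real.one_le_rpow hW1 (by linarith)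
  have hWU : W ^ A ≤ U ^ A := Real.rpow_le_rpow (by linarith) hW2 (by linarith)
  have hU2 : U ^ A * U ^ (2 : ℕ) ≤ U ^ (6 * A + 2) := by
    rw [← Real.rpow_natCast U 2, ← Real.rpow_add (by linarith)]
    exact Real.rpow_le_rpow_of_exponent_le hU1 (by push_cast; linarith)
  have hUA0 : 0 < U ^ A := Real.rpow_pos_of_pos (by linarith) _
  have hU3 : U ^ A ≤ U ^ (6 * A + 2) := Real.rpow_le_rpow_of_exponent_le hU1 (by linarith)
  by_cases hy : ∃ y : ℂ, A * W ^ A * ‖y - c‖ ≤ δ ∧ 3 ≤ ‖orb n c y N‖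
  · obtain ⟨y, hy1, hy2⟩ := hy
    obtain ⟨c', hc1, hc2⟩ := hA c hc N N hN hN y hy2 δ hδ hδ1 h W hW hy1
    refine ⟨c', hc1, hc2.trans ?_⟩
    calc A * W ^ A * (N : ℝ) ^ 2 * min 1 (‖orb n c c N - c‖ * (5 - Real.log ‖orb n c c N - c‖))
        ≤ A * W ^ A * (N : ℝ) ^ 2 * 1 :=
          mul_le_mul_of_nonneg_left (min_le_left (1 : ℝ) _) (by positivity)
      _ ≤ A * U ^ A * U ^ (2 : ℕ) * 1 := by gcongr
      _ = A * (U ^ A * U ^ (2 : ℕ)) := by ring
      _ ≤ (6 * A + 2) * U ^ (6 * A + 2) := by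
        gcongr
        linarith
  · push Not at hy
    have hR : 0 < δ / (A * W ^ A) := by positivity
    have h1 : ‖deriv (fun z => orb n c z N) c‖ ≤ 3 / (δ / (A * W ^ A)) := by
      refine Complex.norm_deriv_le_of_forall_mem_sphere_norm_le hR ?_ fun z hz => ?_
      · exact Differentiable.diffContOnCl fun z => (hasDerivAt_orb z N).differentiableAt
      · rw [mem_sphere, dist_eq_norm] at hz
        refine (hy z ?_).le
        rw [hz, mul_div_cancel₀]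
        positivity
    rw [(hasDerivAt_orb c N).deriv] at h1
    refine ⟨0, ⟨1, le_rfl, by omega, Pool.Agent.H712R2.P_one hn 0⟩, ?_⟩
    have hc2 := norm_le_two hn hc
    rw [zero_sub, norm_neg]
    calc ‖c‖ * (‖P n c c N‖ * δ) ≤ 2 * (3 / (δ / (A * W ^ A)) * δ) := by gcongr
      _ = 6 * A * W ^ A := by field_simp; ring
      _ ≤ 6 * A * U ^ A := by gcongr
      _ ≤ (6 * A + 2) * U ^ (6 * A + 2) := by
        gcongr
        linarith

theorem pow_sub {n : ℕ} {z e : ℂ} {R : ℝ} (hz : ‖z‖ ≤ R) (hze : ‖z + e‖ ≤ R) :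
    ‖(z + e) ^ n - z ^ n‖ ≤ n * R ^ (n - 1) * ‖e‖ := by
  have h1 := geom_sum₂_mul (z + e) z n
  rw [add_sub_cancel_left] at h1
  rw [← h1, norm_mul]
  have hR : 0 ≤ R := (norm_nonneg _).trans hz
  refine mul_le_mul_of_nonneg_right ?_ (norm_nonneg _)
  refine (norm_sum_le _ _).trans ?_
  have h2 : ∀ i ∈ range n, ‖(z + e) ^ i * z ^ (n - 1 - i)‖ ≤ R ^ (n - 1) := by
    intro i hi
    have hi' := mem_range.1 hi
    rw [norm_mul, norm_pow, norm_pow]
    calc ‖z + e‖ ^ i * ‖z‖ ^ (n - 1 - i) ≤ R ^ i * R ^ (n - 1 - i) := by gcongr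
      _ = R ^ (n - 1) := by
        rw [← pow_add]
        congr 1
        omega
  refine (sum_le_sum h2).trans ?_
  rw [sum_const, card_range, nsmul_eq_mul]

/-- the remainder of the power -/
theorem pow_err {n : ℕ} (hn : 1 ≤ n) {z e : ℂ} {t : ℝ} (ht : 0 ≤ t) (ht1 : n * t ≤ 1)
    (he : ‖e‖ ≤ t * ‖z‖) :
    ‖(z + e) ^ n - z ^ n‖ ≤ ‖(n : ℂ) * z ^ (n - 1)‖ * ‖e‖ * (1 + 2 * n * t) := by
  have h1 : ‖z‖ ≤ (1 + t) * ‖z‖ := by nlinarith [norm_nonneg z]
  have h2 : ‖z + e‖ ≤ (1 + t) * ‖z‖ := (norm_add_le _ _).trans (by linarith)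
  refine (pow_sub h1 h2).trans ?_
  rw [norm_mul, Complex.norm_natCast, norm_pow, mul_pow]
  have h3 : (1 + t) ^ (n - 1) ≤ 1 + 2 * n * t := by
    calc (1 + t) ^ (n - 1) ≤ (1 + t) ^ n := pow_le_pow_right₀ (by linarith) (by omega)
      _ ≤ Real.exp t ^ n := by
        gcongr
        have := Real.add_one_le_exp t
        linarith
      _ = Real.exp (n * t) := by rw [← Real.exp_nat_mul]
      _ ≤ 1 + n * t + (n * t) ^ 2 := by
        have h4 : |(n : ℝ) * t| ≤ 1 := by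
          rw [abs_of_nonneg (by positivity)]
          exact ht1
        have h5 := (abs_le.1 (Real.abs_exp_sub_one_sub_id_le h4)).2
        linarith
      _ ≤ 1 + 2 * n * t := by
        have : 0 ≤ n * t := by positivity
        nlinarith
  calc n * ((1 + t) ^ (n - 1) * ‖z‖ ^ (n - 1)) * ‖e‖
      ≤ n * ((1 + 2 * n * t) * ‖z‖ ^ (n - 1)) * ‖e‖ := by gcongr
    _ = _ := by ring

/-- **No escape near the critical value.** -/
theorem trap (hn : 2 ≤ n) (hc : c ∈ multibrotSet n) {N : ℕ} (hN : 1 ≤ N) {δ X : ℝ}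
    (hδ : 0 < δ) (hδ1 : δ ≤ 1) (h : ∀ j, 1 ≤ j → j < N → δ ≤ ‖orb n c c j - c‖)
    (hP : ∀ j < N, ‖P n c c j‖ ≤ X) {y : ℂ}
    (hy : 4 * n * 3 ^ n * N * X * ‖y - c‖ ≤ δ) : ‖orb n c y N‖ ≤ 3 := by
  have hn0 : (0 : ℝ) < n := by exact_mod_cast (by omega : 0 < n)
  have hn2 : (2 : ℝ) ≤ n := by exact_mod_cast hn
  have hN1 : (1 : ℝ) ≤ N := by exact_mod_cast hN
  have hX : 1 ≤ X := by simpa using hP 0 (by omega)
  have ho : ∀ j, ‖orb n c c j‖ ≤ 2 := fun j => mem_multibrot_orb hn hc j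
  have h3n : (9 : ℝ) ≤ 3 ^ n := by
    calc (9 : ℝ) = 3 ^ 2 := by norm_num
      _ ≤ 3 ^ n := pow_le_pow_right₀ (by norm_num) hn
  obtain ⟨q, hq⟩ : ∃ q : ℝ, q = X * ‖y - c‖ := ⟨_, rfl⟩
  have hq0 : 0 ≤ q := by rw [hq]; positivity
  have hqδ : 4 * n * 3 ^ n * N * q ≤ δ := by
    rw [hq]
    calc _ = 4 * n * 3 ^ n * N * X * ‖y - c‖ := by ring
      _ ≤ δ := hy
  obtain ⟨e, he⟩ : ∃ e : ℕ → ℂ, ∀ j, e j = orb n c y j - orb n c c j := ⟨_, fun _ => rfl⟩
  have hpow : ∀ j ≤ N, (1 + 1 / (2 * (N : ℝ))) ^ j ≤ 2 := by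
    intro j hj
    have hN0 : (0 : ℝ) < N := by linarith
    calc (1 + 1 / (2 * (N : ℝ))) ^ j ≤ (1 + 1 / (2 * (N : ℝ))) ^ N :=
          pow_le_pow_right₀ (by
            have : 0 ≤ 1 / (2 * (N : ℝ)) := by positivity
            linarith) hj
      _ ≤ Real.exp (1 / (2 * (N : ℝ))) ^ N := by
        gcongr
        have := Real.add_one_le_exp (1 / (2 * (N : ℝ)))
        linarith
      _ = Real.exp (1 / 2) := by
        rw [← Real.exp_nat_mul]
        congr 1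
        field_simp
      _ ≤ 1 + 1 / 2 + (1 / 2) ^ 2 := by
        have h4 : |(1 / 2 : ℝ)| ≤ 1 := by norm_num
        have h5 := (abs_le.1 (Real.abs_exp_sub_one_sub_id_le h4)).2
        linarith
      _ ≤ 2 := by norm_num
  have key : ∀ j < N, ‖e j‖ ≤ ‖P n c c j‖ * ‖y - c‖ * (1 + 1 / (2 * (N : ℝ))) ^ j := by
    intro j
    induction j with
    | zero => intro _; simp [he]
    | succ j ih =>
      intro hj
      have h1 := ih (by omega)
      have h2 := h (j + 1) (by omega) hj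
      rw [norm_orb_succ_sub] at h2
      have hz : δ ≤ ‖orb n c c j‖ := by
        rcases le_or_gt ‖orb n c c j‖ 1 with hx | hx
        · have h4 : ‖orb n c c j‖ ^ n ≤ ‖orb n c c j‖ ^ 1 :=
            pow_le_pow_of_le_one (norm_nonneg _) hx (by omega)
          rw [pow_one] at h4
          linarith
        · linarith
      have h3 : ‖e j‖ ≤ 2 * q := by
        refine h1.trans ?_
        calc ‖P n c c j‖ * ‖y - c‖ * (1 + 1 / (2 * (N : ℝ))) ^ j ≤ X * ‖y - c‖ * 2 := by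
              have := hP j (by omega)
              have := hpow j (by omega)
              gcongr
          _ = 2 * q := by rw [hq]; ring
      obtain ⟨t, ht⟩ : ∃ t : ℝ, t = 1 / (2 * n * 3 ^ n * N) := ⟨_, rfl⟩
      have ht0 : 0 ≤ t := by rw [ht]; positivity
      have hnt : n * t * (2 * 3 ^ n * N) = 1 := by
        rw [ht]
        field_simp
      have hnt0 : 0 ≤ n * t := by positivity
      have h4 : ‖e j‖ ≤ t * ‖orb n c c j‖ := by
        have h5 : 2 * q ≤ t * δ := by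
          rw [ht, one_div_mul_eq_div, le_div_iff₀ (by positivity)]
          calc 2 * q * (2 * n * 3 ^ n * N) = 4 * n * 3 ^ n * N * q := by ring
            _ ≤ δ := hqδ
        calc ‖e j‖ ≤ t * δ := h3.trans h5
          _ ≤ _ := by gcongr
      have hnt1 : n * t ≤ 1 := by
        have h6 : (1 : ℝ) ≤ 2 * 3 ^ n * N := by nlinarith
        nlinarith
      have h5 := pow_err (n := n) (by omega) ht0 hnt1 h4
      have h6 : 1 + 2 * n * t ≤ 1 + 1 / (2 * (N : ℝ)) := by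
        have h7 : 2 * n * t ≤ 1 / (2 * (N : ℝ)) := by
          rw [le_div_iff₀ (by positivity)]
          have h8 : n * t * (2 * 9 * N) ≤ 1 := by
            rw [← hnt]
            gcongr
          nlinarith [mul_nonneg hnt0 (by linarith : (0 : ℝ) ≤ N)]
        linarith
      have e1 : e (j + 1) = (orb n c c j + e j) ^ n - orb n c c j ^ n := by
        rw [he, he, orb_succ, orb_succ]
        ring
      rw [e1]
      refine h5.trans ?_
      rw [P_succ, norm_mul (P n c c j), pow_succ]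
      calc ‖(n : ℂ) * orb n c c j ^ (n - 1)‖ * ‖e j‖ * (1 + 2 * n * t)
          ≤ ‖(n : ℂ) * orb n c c j ^ (n - 1)‖ *
            (‖P n c c j‖ * ‖y - c‖ * (1 + 1 / (2 * (N : ℝ))) ^ j) * (1 + 1 / (2 * (N : ℝ))) := by
            gcongr
        _ = _ := by ring
  obtain ⟨M, rfl⟩ : ∃ M, N = M + 1 := ⟨N - 1, by omega⟩
  have h1 : ‖e M‖ ≤ 2 * q := by
    refine (key M (by omega)).trans ?_
    calc ‖P n c c M‖ * ‖y - c‖ * (1 + 1 / (2 * ((M + 1 : ℕ) : ℝ))) ^ M ≤ X * ‖y - c‖ * 2 := by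
          have := hP M (by omega)
          have := hpow M (by omega)
          gcongr
      _ = 2 * q := by rw [hq]; ring
  have h2 : n * 3 ^ (n - 1) * ‖e M‖ ≤ 1 := by
    have h3 : (3 : ℝ) ^ (n - 1) ≤ 3 ^ n := pow_le_pow_right₀ (by norm_num) (by omega)
    calc n * 3 ^ (n - 1) * ‖e M‖ ≤ n * 3 ^ n * (2 * q) := by gcongr
      _ ≤ 4 * n * 3 ^ n * ((M + 1 : ℕ) : ℝ) * q := by
        have : 0 ≤ n * 3 ^ n * q := by positivity
        nlinarith
      _ ≤ 1 := hqδ.trans hδ1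
  have h4 : ‖e M‖ ≤ 1 := by
    have h5 : (1 : ℝ) ≤ n * 3 ^ (n - 1) := by
      have : (1 : ℝ) ≤ 3 ^ (n - 1) := one_le_pow₀ (by norm_num)
      nlinarith
    nlinarith [norm_nonneg (e M)]
  have h5 : ‖orb n c c M + e M‖ ≤ 3 := (norm_add_le _ _).trans (by linarith [ho M])
  have h6 := pow_sub (n := n) (z := orb n c c M) (e := e M) (R := 3) (by linarith [ho M]) h5
  have e2 : orb n c y (M + 1) = orb n c c (M + 1) +
      ((orb n c c M + e M) ^ n - orb n c c M ^ n) := by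
    rw [he, orb_succ, orb_succ]
    ring
  rw [e2]
  calc _ ≤ ‖orb n c c (M + 1)‖ + ‖(orb n c c M + e M) ^ n - orb n c c M ^ n‖ := norm_add_le _ _
    _ ≤ 2 + 1 := add_le_add (ho _) (h6.trans h2)
    _ = 3 := by norm_num

end Pool.Agent.Zk17.MB
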